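import Pool.Agent.Helper86.AN.Stmts

set_option autoImplicit false

/-!
MP_4042d8_co, module ALT: the alternating pattern.
-/

namespace Pool.Agent.Helper7.AN

open Pool.Agent.Helper86.AN Finset

theorem alt_per {V : Type} [Fintype V] [DecidableEq V] {A : Finset V} {m w : V → V}
    {u : Bool → V} {n : ℤ} {e : ℤ → V} (hZ : ZD A m w u n e) (t : ℤ) : e (t + n) = e t :=
  (hZ.per (t + n) t).2 ⟨1, by ring⟩

theorem alt_per' {V : Type} [Fintype V] [DecidableEq V] {A : Finset V} {m w : V → V}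
    {u : Bool → V} {n : ℤ} {e : ℤ → V} (hZ : ZD A m w u n e) (t : ℤ) : e (t - n) = e t :=
  (hZ.per (t - n) t).2 ⟨-1, by ring⟩

theorem alt_swap {V : Type} {s : Equiv.Perm V} {u : Bool → V} {i : Bool} {k l : V}
    (h : Sp s u i k l) : Sp s u i l k := Or.symm h

theorem alt_c1 (h2 : ST_L2) (h2q : ST_L2Q) (hC : ST_COL) {V : Type} [Fintype V] [DecidableEq V]
    {s : Equiv.Perm V} {A : Finset V} {m w : V → V} {u : Bool → V} {n : ℤ} {e : ℤ → V}
    (hK : KD s A m w u) (hZ : ZD A m w u n e) (hG : ¬ Good s A m) {c : V → Bool}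
    (hE : Env A m w u e c) {j : Bool} {p q p' q' : ℤ} (hpq : p < q) (hqp : q < p + n)
    (hp1 : q < p') (hp2 : p' ≤ p + n) (hq1 : q < q') (hq2 : q' ≤ p + n)
    (hs : Sp s u j (e p) (e p')) (hs' : Sp s u (!j) (e q) (e q')) :
    col w u e j c p q (rr s w (w (e p))) = true ∧
      col w u e j c p q (rr s w (w (e q))) = true := by
  have hne : col w u e j c p q (rr s w (w (e p))) = col w u e j c p q (rr s w (w (e q))) := by
    by_contra h
    exact hG (h2 V s A m w u n e c j p q p' q' hK hZ hE hpq hqp hs hs' h)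
  obtain ⟨_, hc2, _⟩ := hC V s A m w u n e c j p q hK hZ hE hpq hqp
  have t1 : col w u e j c p q (e p') = true := (hc2 p' (by omega) hp2).2 hp1
  have t2 : col w u e j c p q (e q') = true := (hc2 q' (by omega) hq2).2 hq1
  have hnf : ¬ (col w u e j c p q (rr s w (w (e p))) = false) := by
    intro h
    exact hG (h2q V s A m w u n e c j p q p' q' hK hZ hE hpq hqp hs hs' t1 t2 h (hne ▸ h))
  have t3 : col w u e j c p q (rr s w (w (e p))) = true := by
    revert hnf
    cases col w u e j c p q (rr s w (w (e p)))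
    · intro h; exact absurd rfl h
    · intro _; rfl
  exact ⟨t3, hne ▸ t3⟩

theorem alt_A (h2 : ST_L2) (h2q : ST_L2Q) (hX : ST_LX) (hP : ST_POS) (hC : ST_COL) (hR : ST_RF)
    (hV : ST_ENVF) {V : Type} [Fintype V] [DecidableEq V]
    {s : Equiv.Perm V} {A : Finset V} {m w : V → V} {u : Bool → V} {n : ℤ} {e : ℤ → V}
    (hK : KD s A m w u) (hZ : ZD A m w u n e) (hG : ¬ Good s A m) {c₀ : V → Bool}
    (hE : Env A m w u e c₀) {i : Bool} {a b c d : ℤ} (hab : a < b) (hbc : b < c) (hcd : c < d)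
    (hda : d < a + n) (hs : Sp s u i (e a) (e c)) (hs' : Sp s u (!i) (e b) (e d)) :
    ∃ t, b < t ∧ t < c ∧ rr s w (w (e a)) = e t ∧ rr s w (e t) = w (e a) ∧
      ∀ i', e t ≠ s (u i') ∧ e t ≠ s.symm (u i') := by
  obtain ⟨_, r2, r3, _, r5, r6, r7, _⟩ := hR V s A m w u hK
  obtain ⟨_, _, v3, _⟩ := hV V s A m w u n e c₀ hK hZ hE
  have hsym : Sp s u (!(!i)) (e a) (e c) := by rw [Bool.not_not]; exact hs
  -- neighbours of kinks
  have hnb : ∀ (i' : Bool) (x : V), (x = s (u i') ∨ x = s.symm (u i')) →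
      x = e a ∨ x = e b ∨ x = e c ∨ x = e d := by
    intro i' x hx
    by_cases hi : i' = i
    · subst hi
      rcases hs with ⟨h1, h3⟩ | ⟨h1, h3⟩ <;> rcases hx with hx | hx <;> rw [hx]
      · exact Or.inl h1.symm
      · exact Or.inr (Or.inr (Or.inl h3.symm))
      · exact Or.inr (Or.inr (Or.inl h1.symm))
      · exact Or.inl h3.symm
    · have hi2 : i' = !i := by
        cases i' <;> cases i <;> simp_all
      subst hi2
      rcases hs' with ⟨h1, h3⟩ | ⟨h1, h3⟩ <;> rcases hx with hx | hx <;> rw [hx]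
      · exact Or.inr (Or.inl h1.symm)
      · exact Or.inr (Or.inr (Or.inr h3.symm))
      · exact Or.inr (Or.inr (Or.inr h1.symm))
      · exact Or.inr (Or.inl h3.symm)
  have hwA : w (e a) ∈ Ap A u := (hK.winv (e a) (hZ.eA a)).1
  have hwn : ∀ i', ¬ (w (e a) = s (u i') ∨ w (e a) = s.symm (u i')) := by
    intro i' h
    rcases hnb i' _ h with h | h | h | h
    · exact v3 a a h.symm
    · exact v3 b a h.symm
    · exact v3 c a h.symm
    · exact v3 d a h.symm
  have hzA : rr s w (w (e a)) ∈ Ap A u := by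
    refine (r2 _).2 ⟨(r5 _ hwA).1, ?_⟩
    intro i' h
    exact hwn i' ((r6 _ hwA i').1 h)
  have hrr : rr s w (rr s w (w (e a))) = w (e a) := r7 _ hwA hzA
  obtain ⟨t, ht1, ht2, ht3⟩ := hP V s A m w u n e c₀ (!i) i (d - n) a b (rr s w (w (e a)))
    hK hZ hE hzA (by omega) hab (by omega)
    (by
      intro c' hc'
      refine (alt_c1 h2 h2q hC hK hZ hG hc' (p' := b) (q' := c) (by omega) (by omega) hab
        (by omega) (by omega) (by omega) ?_ hsym).2
      rw [alt_per' hZ]
      exact alt_swap hs')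
    (by
      intro c' hc'
      exact (alt_c1 h2 h2q hC hK hZ hG hc' (p' := c) (q' := d) hab (by omega) hbc
        (by omega) (by omega) (by omega) hs hs').1)
  have hrt : rr s w (e t) = w (e a) := by rw [← ht3]; exact hrr
  have hen : ∀ i', e t ≠ s (u i') ∧ e t ≠ s.symm (u i') := by
    intro i'
    have h0 : ¬ (e t = s (u i') ∨ e t = s.symm (u i')) := by
      intro h
      have h1 := (r6 (e t) (hZ.eA t) i').2 h
      rw [hrt] at h1
      exact ((r2 _).1 hwA).2 i' h1
    exact ⟨fun h => h0 (Or.inl h), fun h => h0 (Or.inr h)⟩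
  have htc : t ≠ c := by
    intro h
    subst h
    rcases hs with ⟨_, h3⟩ | ⟨h1, _⟩
    · exact (hen i).2 h3
    · exact (hen i).1 h1
  have htd : t ≠ d := by
    intro h
    subst h
    rcases hs' with ⟨_, h3⟩ | ⟨h1, _⟩
    · exact (hen _).2 h3
    · exact (hen _).1 h1
  have htd' : t < d := lt_of_le_of_ne (by omega) htd
  by_cases htc' : t < c
  · exact ⟨t, ht1, htc', ht3, hrt, hen⟩
  · exfalso
    have hct : c < t := lt_of_le_of_ne (not_lt.1 htc') (Ne.symm htc)
    obtain ⟨_, hc2, hc3, _⟩ := hC V s A m w u n e c₀ i a t hK hZ hE (by omega) (by omega)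
    have f : ∀ x : V, ¬ (col w u e i c₀ a t x = true) → col w u e i c₀ a t x = false := by
      intro x hx
      revert hx
      cases col w u e i c₀ a t x
      · intro _; rfl
      · intro h; exact absurd rfl h
    refine hG (hX V s A m w u n e c₀ i a t c d b hK hZ hE (by omega) (by omega) hs
      (alt_swap hs') hen ?_ ?_ ?_ ?_ ?_)
    · apply f
      rw [hc2 c (by omega) (by omega)]
      omega
    · rw [hc2 d (by omega) (by omega)]
      omega
    · apply f
      rw [hc2 b (by omega) (by omega)]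
      omega
    · apply f
      rw [ht3, hc2 t (by omega) (by omega)]
      omega
    · rw [hrt, hc3 a (by omega) (by omega)]
      omega

theorem st_ALT (h2 : ST_L2) (h2q : ST_L2Q) (hX : ST_LX) (hP : ST_POS) (hC : ST_COL)
    (hR : ST_RF) (hV : ST_ENVF) : ST_ALT := by
  intro V _ _ s A m w u n e c₀ i a b c d hK hZ hE hab hbc hcd hda hs hs'
  by_contra hG
  obtain ⟨t, ht1, ht2, ht3, hrt, hen⟩ := alt_A h2 h2q hX hP hC hR hV hK hZ hG hE hab hbc hcd hda
    hs hs'
  have hsym : Sp s u (!(!i)) (e (a + n)) (e (c + n)) := by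
    rw [Bool.not_not, alt_per hZ, alt_per hZ]
    exact hs
  have hs1 : Sp s u (!i) (e d) (e (b + n)) := by
    rw [alt_per hZ]
    exact alt_swap hs'
  obtain ⟨t', hu1, hu2, hu3, _, _⟩ := alt_A h2 h2q hX hP hC hR hV hK hZ hG hE
    (a := d) (b := a + n) (c := b + n) (d := c + n) (i := !i) hda (by omega) (by omega)
    (by omega) hs1 hsym
  obtain ⟨_, hc2, hc3, _⟩ := hC V s A m w u n e c₀ (!i) (d - n) t hK hZ hE (by omega) (by omega)
  have f : ∀ x : V, ¬ (col w u e (!i) c₀ (d - n) t x = true) →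
      col w u e (!i) c₀ (d - n) t x = false := by
    intro x hx
    revert hx
    cases col w u e (!i) c₀ (d - n) t x
    · intro _; rfl
    · intro h; exact absurd rfl h
  refine hG (hX V s A m w u n e c₀ (!i) (d - n) t b c a hK hZ hE (by omega) (by omega) ?_ ?_ hen
    ?_ ?_ ?_ ?_ ?_)
  · rw [alt_per' hZ]
    exact alt_swap hs'
  · rw [Bool.not_not]
    exact alt_swap hs
  · apply f
    rw [hc2 b (by omega) (by omega)]
    omega
  · rw [hc2 c (by omega) (by omega)]
    omega
  · apply f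
    rw [hc2 a (by omega) (by omega)]
    omega
  · apply f
    rw [alt_per' hZ, hu3, ← alt_per' hZ t', hc2 (t' - n) (by omega) (by omega)]
    omega
  · rw [hrt, hc3 a (by omega) (by omega)]
    omega

end Pool.Agent.Helper7.AN
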